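import Pool.Agent.Lib.GSE.Far
import Pool.Agent.Lib.GS.Geod1
import Pool.Agent.Lib.GS.Main
import Pool.Agent.Lib.GSG.Basic

/-!
# Rows and columns in the group of triangle data

A row word is a product of letters brick – vertical wall which crosses walls from one side to the
other, with arbitrary elements of the vertex group in the walls and in the bricks, without pinches.
Row words do not lie in the vertex group, and a row word followed by a column word neither.  Then
every group over a row (given as a graph of groups with a homomorphism to the universal group)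
embeds, and a row group and a column group through a common brick are independent.
-/

namespace Pool.TPR

open Pool.GS Pool.GSE Word Sys Function

/-- `s` if `ε` is true, `s⁻¹` if `ε` is false -/
def lt {A : Type*} [Group A] (s : A) (ε : Bool) : A := if ε then s else s⁻¹

@[simp] theorem lt_false {A : Type*} [Group A] (s : A) : lt s false = s⁻¹ := rfl
@[simp] theorem lt_true {A : Type*} [Group A] (s : A) : lt s true = s := rfl

theorem lt_mul_lt_not {A : Type*} [Group A] (s : A) (δ : Bool) : lt s δ * lt s (!δ) = 1 := by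
  cases δ <;> simp

section words

variable {Γ P Q R τ : Type*} [Group Γ] (D : TriData Γ P Q R τ)

/-- letters brick – vertical wall -/
noncomputable def lP (p : P) : D.sys.U := D.sys.letter (.P p true)
/-- letters brick – horizontal wall -/
noncomputable def lQ (q : Q) : D.sys.U := D.sys.letter (.Q q true)

/-- `RW D psd p₀ g` : `g` is the value of a reduced row word with first letter `lP D p₀` -/
inductive RW (psd : P → Bool) : P → D.sys.U → Prop
  | one {p₀ p : P} (n z : Γ) : psd p₀ ≠ psd p →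
      RW psd p₀ (lP D p₀ * D.sys.base n * (lP D p)⁻¹ * D.sys.base z)
  | cons {p₀ p p' : P} (n z : Γ) {g : D.sys.U} : psd p₀ ≠ psd p →
      ¬ (p = p' ∧ ∃ l', (z, l') ∈ D.LP p) → RW psd p' g →
      RW psd p₀ (lP D p₀ * D.sys.base n * (lP D p)⁻¹ * D.sys.base z * g)

/-- `CW D qsd q₀ g` : `g` is the value of a reduced column word with first letter `lQ D q₀` -/
inductive CW (qsd : Q → Bool) : Q → D.sys.U → Prop
  | one {q₀ q : Q} (n z : Γ) : qsd q₀ ≠ qsd q →
      CW qsd q₀ (lQ D q₀ * D.sys.base n * (lQ D q)⁻¹ * D.sys.base z)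
  | cons {q₀ q q' : Q} (n z : Γ) {g : D.sys.U} : qsd q₀ ≠ qsd q →
      ¬ (q = q' ∧ ∃ l', (z, l') ∈ D.LQ q) → CW qsd q' g →
      CW qsd q₀ (lQ D q₀ * D.sys.base n * (lQ D q)⁻¹ * D.sys.base z * g)

variable {D} {psd : P → Bool} {qsd : Q → Bool}

/-- one right angle at a brick -/
theorem angGe_PQ {p : P} {q : Q} (g : Γ) : D.sys.AngGe (.P p false) g (.Q q true) 1 := by
  intro L l l' _ hpath _ hnil hhead _
  rcases L with _ | ⟨d1, L⟩
  · exfalso
    have h1 := hnil rfl
    change Ed.Q q true = Ed.P p true at h1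
    cases h1
  have hd1 : d1.f = .P p true := hhead d1 (by simp)
  have hc1 := path_head hpath
  obtain ⟨f1, c1, f1'⟩ := d1
  simp only at hd1
  subst hd1
  obtain ⟨q', rfl⟩ := TriData.cor_PT hc1
  have h5 : D.sys.ang (.P p true) (.Q q' true) = 1 := rfl
  simp only [angle_cons, h5]
  omega

theorem RW.word (H : D.VCond psd) {p₀ : P} {g : D.sys.U} (h : RW D psd p₀ g) :
    ∃ (n : Γ) (l l' : List (Ed P Q R × Γ)) (p : P) (c : Γ),
      (.P p₀ true, n) :: l = l' ++ [(.P p false, c)] ∧
      D.sys.Geod ((.P p₀ true, n) :: l) ∧ g = D.sys.eval (wd ((.P p₀ true, n) :: l)) := by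
  induction h with
  | @one p₀ p n z hp =>
    refine ⟨n, [(.P p false, z)], [(.P p₀ true, n)], p, z, rfl, ?_, ?_⟩
    · unfold Sys.Geod
      rw [List.isChain_cons_cons]
      exact ⟨TriData.far_wall H hp _, List.isChain_singleton _⟩
    · have h1 : D.sys.letter (.P p false) = (lP D p)⁻¹ := D.sys.letter_bar (.P p true)
      simp only [wd_cons, wd_nil, map_mul, mul_one, Sys.eval_ε, Sys.eval_ι, h1, mul_assoc]
      rfl
  | @cons p₀ p p' n z g hp hn _ ih =>
    obtain ⟨n', l, l', p₁, c, h1, h2, rfl⟩ := ih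
    refine ⟨n, (.P p false, z) :: (.P p' true, n') :: l, (.P p₀ true, n) :: (.P p false, z) :: l',
      p₁, c, by rw [h1]; rfl, ?_, ?_⟩
    · unfold Sys.Geod at h2 ⊢
      rw [List.isChain_cons_cons, List.isChain_cons_cons]
      exact ⟨TriData.far_wall H hp _, TriData.far_brick hn, h2⟩
    · have h1 : D.sys.letter (.P p false) = (lP D p)⁻¹ := D.sys.letter_bar (.P p true)
      simp only [wd_cons, map_mul, Sys.eval_ε, Sys.eval_ι, h1, mul_assoc]
      rfl

theorem CW.word (H : D.swap.VCond qsd) {q₀ : Q} {g : D.sys.U} (h : CW D qsd q₀ g) :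
    ∃ (n : Γ) (l l' : List (Ed P Q R × Γ)) (q : Q) (c : Γ),
      (.Q q₀ true, n) :: l = l' ++ [(.Q q false, c)] ∧
      D.sys.Geod ((.Q q₀ true, n) :: l) ∧ g = D.sys.eval (wd ((.Q q₀ true, n) :: l)) := by
  induction h with
  | @one q₀ q n z hq =>
    refine ⟨n, [(.Q q false, z)], [(.Q q₀ true, n)], q, z, rfl, ?_, ?_⟩
    · unfold Sys.Geod
      rw [List.isChain_cons_cons]
      exact ⟨TriData.far_wall' H hq _, List.isChain_singleton _⟩
    · have h1 : D.sys.letter (.Q q false) = (lQ D q)⁻¹ := D.sys.letter_bar (.Q q true)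
      simp only [wd_cons, wd_nil, map_mul, mul_one, Sys.eval_ε, Sys.eval_ι, h1, mul_assoc]
      rfl
  | @cons q₀ q q' n z g hq hn _ ih =>
    obtain ⟨n', l, l', q₁, c, h1, h2, rfl⟩ := ih
    refine ⟨n, (.Q q false, z) :: (.Q q' true, n') :: l, (.Q q₀ true, n) :: (.Q q false, z) :: l',
      q₁, c, by rw [h1]; rfl, ?_, ?_⟩
    · unfold Sys.Geod at h2 ⊢
      rw [List.isChain_cons_cons, List.isChain_cons_cons]
      exact ⟨TriData.far_wall' H hq _, TriData.far_brick' hn, h2⟩
    · have h1 : D.sys.letter (.Q q false) = (lQ D q)⁻¹ := D.sys.letter_bar (.Q q true)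
      simp only [wd_cons, map_mul, Sys.eval_ε, Sys.eval_ι, h1, mul_assoc]
      rfl

/-- **Row words do not lie in the vertex group.** -/
theorem RW.ne (H : D.VCond psd) (H' : D.swap.VCond qsd) {p₀ : P} {g : D.sys.U}
    (h : RW D psd p₀ g) (a b : Γ) : D.sys.base a * g ≠ D.sys.base b := by
  obtain ⟨n, l, l', p, c, -, h2, rfl⟩ := h.word H
  exact Sys.base_mul_eval_wd_ne (TriData.girth H H') (by simp) h2 a b

/-- **Column words do not lie in the vertex group.** -/
theorem CW.ne (H : D.VCond psd) (H' : D.swap.VCond qsd) {q₀ : Q} {g : D.sys.U}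
    (h : CW D qsd q₀ g) (a b : Γ) : D.sys.base a * g ≠ D.sys.base b := by
  obtain ⟨n, l, l', q, c, -, h2, rfl⟩ := h.word H'
  exact Sys.base_mul_eval_wd_ne (TriData.girth H H') (by simp) h2 a b

/-- **A row word followed by a column word does not lie in the vertex group**, with an arbitrary
element of the vertex group between them. -/
theorem RW.mul_CW_ne (H : D.VCond psd) (H' : D.swap.VCond qsd) {p₀ : P} {g : D.sys.U}
    (h : RW D psd p₀ g) {q₀ : Q} {g' : D.sys.U} (h' : CW D qsd q₀ g') (z a b : Γ) :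
    D.sys.base a * g * D.sys.base z * g' ≠ D.sys.base b := by
  obtain ⟨n, l, l', p, c, h1, h2, rfl⟩ := h.word H
  obtain ⟨n', m, m', q, d, -, g2, rfl⟩ := h'.word H'
  rw [h1] at h2 ⊢
  have hg1 := GeodD.last (b := c * z) (GeodD.of_geod h2)
  have hg2 := GeodD.append (k := 1) hg1 (angGe_PQ _) (GeodD.of_geod g2)
  have key := Sys.base_mul_eval_wd_ne' (TriData.girth H H') (by simp) hg2 a b
  intro he
  apply key
  have h4 : ∀ (z : Ed P Q R × Γ) (l₁ l₂ : List (Ed P Q R × Γ)),
      wd (l₁ ++ z :: l₂) = wd (l₁ ++ [z]) * wd l₂ := by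
    intro z l₁ l₂
    rw [← wd_append, List.append_assoc]
    rfl
  refine Eq.trans ?_ he
  rw [h4, wd_eq_wd_mul]
  simp only [map_mul, Sys.eval_ι, mul_assoc]

end words

/-! ### Groups over rows -/

/-- A group `K` over a row.  `T` are the bricks, `V` the walls of the row, `inc v ε t` : the brick
`t` lies at the side `ε` of the wall `v`; `e` maps the groups `W t`, `k` the letters of the walls to
`K`; `F` is a homomorphism to the universal group, `q t` are paths to the bricks. -/
structure RowK {Γ P Q R τ : Type*} [Group Γ] (D : TriData Γ P Q R τ) (psd : P → Bool)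
    (T V : Type*) (K : Type*) [Group K] where
  inc : V → Bool → T → Prop
  uniq : ∀ {v ε t t'}, inc v ε t → inc v ε t' → t = t'
  p : ∀ {v ε t}, inc v ε t → P
  psd_ne : ∀ {v t t'} (i : inc v false t) (i' : inc v true t'), psd (p i) ≠ psd (p i')
  p_inj : ∀ {v ε v' ε' t} (i : inc v ε t) (i' : inc v' ε' t), p i = p i' → v = v' ∧ ε = ε'
  W : T → Type
  [grp : ∀ t, Group (W t)]
  u : ∀ t, W t →* Γ
  m : V → Γ
  e : ∀ t, W t →* K
  k : V → K
  F : K →* D.sys.U
  q : T → D.sys.U
  cross : ∀ {v ε t t'} (i : inc v ε t), inc v (!ε) t' → ∀ (w : W t) {l : Γ},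
    (u t w, l) ∈ D.LP (p i) → ∃ w' : W t', e t w * lt (k v) (!ε) = lt (k v) (!ε) * e t' w'
  F_e : ∀ t w, F (e t w) = q t * D.sys.base (u t w) * (q t)⁻¹
  F_k : ∀ {v t t'} (i : inc v false t) (i' : inc v true t'),
    F (k v) = q t * (lP D (p i) * D.sys.base (m v) * (lP D (p i'))⁻¹) * (q t')⁻¹

attribute [instance] RowK.grp

namespace RowK

variable {Γ P Q R τ : Type*} [Group Γ] {D : TriData Γ P Q R τ} {psd : P → Bool} {qsd : Q → Bool}
  {T V K : Type*} [Group K] (X : RowK D psd T V K)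

/-- walks in the row and their values in `K` -/
inductive Walk : T → T → K → Prop
  | nil {t : T} (w : X.W t) : Walk t t (X.e t w)
  | cons {t₀ : T} {v : V} {δ : Bool} {t t' : T} {a : K} (w : X.W t₀) :
      X.inc v (!δ) t₀ → X.inc v δ t → Walk t t' a →
      Walk t₀ t' (X.e t₀ w * lt (X.k v) δ * a)

variable {X}

/-- multiplication from the left with an element of a brick -/
theorem Walk.mul_left {t t' : T} {a : K} (h : X.Walk t t' a) (w : X.W t) :
    X.Walk t t' (X.e t w * a) := by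
  cases h with
  | nil w' =>
    rw [← map_mul]
    exact .nil _
  | @cons _ v δ t₁ _ a w' i i' h =>
    have h1 : X.e t w * (X.e t w' * lt (X.k v) δ * a) = X.e t (w * w') * lt (X.k v) δ * a := by
      rw [map_mul]; group
    rw [h1]
    exact .cons _ i i' h

theorem Walk.trans {t t' t'' : T} {a b : K} (h : X.Walk t t' a) (h' : X.Walk t' t'' b) :
    X.Walk t t'' (a * b) := by
  induction h with
  | nil w => exact h'.mul_left w
  | @cons t₀ v δ t t' a w i i' _ ih =>
    rw [mul_assoc]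
    exact .cons _ i i' (ih h')

theorem Walk.symm {t t' : T} {a : K} (h : X.Walk t t' a) : X.Walk t' t a⁻¹ := by
  induction h with
  | nil w =>
    rw [← map_inv]
    exact .nil _
  | @cons t₀ v δ t t' a w i i' h ih =>
    have h2 : X.Walk t t₀ (X.e t 1 * lt (X.k v) (!δ) * X.e t₀ w⁻¹) :=
      .cons _ (by rw [Bool.not_not]; exact i') i (.nil _)
    have h3 : (X.e t₀ w * lt (X.k v) δ * a)⁻¹ =
        a⁻¹ * (X.e t 1 * lt (X.k v) (!δ) * X.e t₀ w⁻¹) := by
      rw [map_one, map_inv, one_mul]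
      cases δ
      · simp only [lt_false, Bool.not_false, lt_true]; group
      · simp only [lt_true, Bool.not_true, lt_false]; group
    rw [h3]
    exact ih.trans h2

/-- **Generation**: if `K` is generated by the groups of the bricks of the row and the letters of the
walls, and all bricks are connected with the brick `t₀` by walks of value `1`, then every element of
`K` is the value of a closed walk at `t₀`. -/
theorem walk_of_gen {t₀ : T} (hconn : ∀ t, X.Walk t₀ t 1)
    (hinc : ∀ v, ∃ t t', X.inc v false t ∧ X.inc v true t')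
    (hgen : Subgroup.closure ({a | ∃ t w, a = X.e t w} ∪ {a | ∃ v, a = X.k v}) = ⊤)
    (a : K) : X.Walk t₀ t₀ a := by
  have h1 : a ∈ Subgroup.closure ({a | ∃ t w, a = X.e t w} ∪ {a | ∃ v, a = X.k v}) := by
    rw [hgen]; exact Subgroup.mem_top a
  induction h1 using Subgroup.closure_induction with
  | mem x hx =>
    rcases hx with ⟨t, w, rfl⟩ | ⟨v, rfl⟩
    · have h2 := (hconn t).trans ((Walk.nil (X := X) w).trans (hconn t).symm)
      rwa [inv_one, mul_one, one_mul] at h2
    · obtain ⟨t, t', i, i'⟩ := hinc v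
      have h3 : X.Walk t t' (X.e t 1 * lt (X.k v) true * X.e t' 1) :=
        .cons (δ := true) _ i i' (.nil _)
      have h2 := (hconn t).trans (h3.trans (hconn t').symm)
      simpa using h2
  | one =>
    have h2 := Walk.nil (X := X) (1 : X.W t₀)
    rwa [map_one] at h2
  | mul x y _ _ hx hy => exact hx.trans hy
  | inv x _ hx => exact hx.symm

variable (X) in
/-- reduced paths in the row with their values in `K` and in the universal group -/
inductive Red : T → V → Bool → T → K → D.sys.U → Prop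
  | one {t₀ : T} {v : V} {δ : Bool} {t : T} (i₀ : X.inc v (!δ) t₀) (i : X.inc v δ t) (w : X.W t) :
      Red t₀ v δ t (lt (X.k v) δ * X.e t w)
        (lP D (X.p i₀) * D.sys.base (lt (X.m v) δ) * (lP D (X.p i))⁻¹ * D.sys.base (X.u t w))
  | cons {t₀ : T} {v : V} {δ : Bool} {t : T} (i₀ : X.inc v (!δ) t₀) (i : X.inc v δ t)
      (w : X.W t) {v' : V} {δ' : Bool} {t' : T} {a : K} {g : D.sys.U} :
      ¬ (v' = v ∧ δ' = !δ ∧ ∃ l, (X.u t w, l) ∈ D.LP (X.p i)) → Red t v' δ' t' a g →
      Red t₀ v δ t' (lt (X.k v) δ * X.e t w * a)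
        (lP D (X.p i₀) * D.sys.base (lt (X.m v) δ) * (lP D (X.p i))⁻¹ * D.sys.base (X.u t w) * g)

theorem psd_ne' {v : V} {δ : Bool} {t t' : T} (i : X.inc v (!δ) t) (i' : X.inc v δ t') :
    psd (X.p i) ≠ psd (X.p i') := by
  cases δ
  · exact (X.psd_ne i' i).symm
  · exact X.psd_ne i i'

theorem Red.rw {t₀ : T} {v : V} {δ : Bool} {t : T} {a : K} {g : D.sys.U}
    (h : X.Red t₀ v δ t a g) : ∃ i₀ : X.inc v (!δ) t₀, RW D psd (X.p i₀) g := by
  induction h with
  | one i₀ i w => exact ⟨i₀, .one _ _ (psd_ne' i₀ i)⟩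
  | @cons t₀ v δ t i₀ i w v' δ' t' a g hn _ ih =>
    obtain ⟨i', h⟩ := ih
    refine ⟨i₀, .cons _ _ (psd_ne' i₀ i) ?_ h⟩
    rintro ⟨h1, h2⟩
    obtain ⟨rfl, h3⟩ := X.p_inj i i' h1
    exact hn ⟨rfl, by rw [h3, Bool.not_not], h2⟩

/-- crossing a wall in the group `K` -/
theorem F_lt {v : V} {δ : Bool} {t t' : T} (i : X.inc v (!δ) t) (i' : X.inc v δ t') :
    X.F (lt (X.k v) δ) =
      X.q t * (lP D (X.p i) * D.sys.base (lt (X.m v) δ) * (lP D (X.p i'))⁻¹) * (X.q t')⁻¹ := by
  cases δ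
  · rw [lt_false, lt_false, map_inv, X.F_k i' i, map_inv]
    group
  · exact X.F_k i i'

theorem Red.F_eq {t₀ : T} {v : V} {δ : Bool} {t : T} {a : K} {g : D.sys.U}
    (h : X.Red t₀ v δ t a g) : X.F a = X.q t₀ * g * (X.q t)⁻¹ := by
  induction h with
  | one i₀ i w =>
    rw [map_mul, F_lt i₀ i, X.F_e]
    group
  | cons i₀ i w hn _ ih =>
    rw [map_mul, map_mul, F_lt i₀ i, X.F_e, ih]
    group

/-- **Reduction**: the value of a walk is an element of a brick or such an element times the value of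
a reduced path. -/
theorem Walk.reduce {t₀ t : T} {a : K} (h : X.Walk t₀ t a) :
    (t₀ = t ∧ ∃ w, a = X.e t₀ w) ∨
      ∃ (w : X.W t₀) (v : V) (δ : Bool) (b : K) (g : D.sys.U), X.Red t₀ v δ t b g ∧
        a = X.e t₀ w * b := by
  induction h with
  | @nil t w => exact Or.inl ⟨rfl, w, rfl⟩
  | @cons t₀ v δ t t' a w i i' h ih =>
    rcases ih with ⟨rfl, w', rfl⟩ | ⟨w', v', δ', b, g, h1, rfl⟩
    · exact Or.inr ⟨w, v, δ, _, _, .one i i' w', by rw [mul_assoc]⟩
    · by_cases hn : v' = v ∧ δ' = !δ ∧ ∃ l, (X.u t w', l) ∈ D.LP (X.p i')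
      · obtain ⟨rfl, rfl, l, hl⟩ := hn
        obtain ⟨w'', h0⟩ := X.cross i' i w' hl
        have h2 : X.e t₀ w * lt (X.k v') δ * (X.e t w' * (lt (X.k v') (!δ))) =
            X.e t₀ (w * w'') := by
          rw [h0, mul_assoc, ← mul_assoc (lt (X.k v') δ), lt_mul_lt_not, one_mul, map_mul]
        cases h1 with
        | one j₀ j w₂ =>
          obtain rfl := X.uniq i j
          refine Or.inl ⟨rfl, w * w'' * w₂, ?_⟩
          rw [map_mul (X.e t₀) (w * _), ← h2]
          group
        | @cons _ _ _ t₁ j₀ j w₂ v₂ δ₂ _ b' g' hn' h' =>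
          obtain rfl := X.uniq i j
          refine Or.inr ⟨w * w'' * w₂, _, _, _, _, h', ?_⟩
          rw [map_mul (X.e t₀) (w * _), ← h2]
          group
      · exact Or.inr ⟨w, v, δ, _, _, .cons i i' w' hn h1, by group⟩

/-- the values of closed walks in the universal group -/
theorem Walk.spec {t₀ : T} {a : K} (h : X.Walk t₀ t₀ a) :
    (∃ w : X.W t₀, X.F a = X.q t₀ * D.sys.base (X.u t₀ w) * (X.q t₀)⁻¹ ∧ (w = 1 → a = 1)) ∨
      ∃ (w : X.W t₀) (p₀ : P) (g : D.sys.U), RW D psd p₀ g ∧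
        X.F a = X.q t₀ * (D.sys.base (X.u t₀ w) * g) * (X.q t₀)⁻¹ := by
  rcases h.reduce with ⟨-, w, rfl⟩ | ⟨w, v, δ, b, g, h1, rfl⟩
  · refine Or.inl ⟨w, X.F_e _ _, ?_⟩
    rintro rfl
    rw [map_one]
  · obtain ⟨i₀, h2⟩ := h1.rw
    refine Or.inr ⟨w, X.p i₀, g, h2, ?_⟩
    rw [map_mul, X.F_e, h1.F_eq]
    group

/-- **The group over a row embeds.** -/
theorem F_injective (H : D.VCond psd) (H' : D.swap.VCond qsd) {t₀ : T}
    (h : ∀ a, X.Walk t₀ t₀ a) (hu : Injective (X.u t₀)) : Injective X.F := by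
  rw [injective_iff_map_eq_one]
  intro a ha
  rcases (h a).spec with ⟨w, h1, h2⟩ | ⟨w, p₀, g, h1, h2⟩
  · apply h2
    rw [ha] at h1
    have h3 : D.sys.base (X.u t₀ w) = 1 := by
      have h4 := mul_inv_eq_one.1 h1.symm
      exact mul_eq_left.1 h4
    rw [map_eq_one_iff _ (D.sys.base_injective (TriData.girth H H')), map_eq_one_iff _ hu] at h3
    exact h3
  · exfalso
    rw [ha] at h2
    refine h1.ne H H' (X.u t₀ w) 1 ?_
    have h4 := mul_inv_eq_one.1 h2.symm
    rw [map_one]
    exact mul_eq_left.1 h4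

end RowK

/-! ### Groups over columns -/

/-- A group `K` over a column.  `T` are the bricks, `V` the walls of the column, `inc v ε t` : the brick
`t` lies at the side `ε` of the wall `v`; `e` maps the groups `W t`, `k` the letters of the walls to
`K`; `F` is a homomorphism to the universal group, `q t` are paths to the bricks. -/
structure ColK {Γ P Q R τ : Type*} [Group Γ] (D : TriData Γ P Q R τ) (qsd : Q → Bool)
    (T V : Type*) (K : Type*) [Group K] where
  inc : V → Bool → T → Prop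
  uniq : ∀ {v ε t t'}, inc v ε t → inc v ε t' → t = t'
  p : ∀ {v ε t}, inc v ε t → Q
  qsd_ne : ∀ {v t t'} (i : inc v false t) (i' : inc v true t'), qsd (p i) ≠ qsd (p i')
  p_inj : ∀ {v ε v' ε' t} (i : inc v ε t) (i' : inc v' ε' t), p i = p i' → v = v' ∧ ε = ε'
  W : T → Type
  [grp : ∀ t, Group (W t)]
  u : ∀ t, W t →* Γ
  m : V → Γ
  e : ∀ t, W t →* K
  k : V → K
  F : K →* D.sys.U
  q : T → D.sys.U
  cross : ∀ {v ε t t'} (i : inc v ε t), inc v (!ε) t' → ∀ (w : W t) {l : Γ},
    (u t w, l) ∈ D.LQ (p i) → ∃ w' : W t', e t w * lt (k v) (!ε) = lt (k v) (!ε) * e t' w'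
  F_e : ∀ t w, F (e t w) = q t * D.sys.base (u t w) * (q t)⁻¹
  F_k : ∀ {v t t'} (i : inc v false t) (i' : inc v true t'),
    F (k v) = q t * (lQ D (p i) * D.sys.base (m v) * (lQ D (p i'))⁻¹) * (q t')⁻¹

attribute [instance] ColK.grp

namespace ColK

variable {Γ P Q R τ : Type*} [Group Γ] {D : TriData Γ P Q R τ} {psd : P → Bool} {qsd : Q → Bool}
  {T V K : Type*} [Group K] (X : ColK D qsd T V K)

/-- walks in the column and their values in `K` -/
inductive Walk : T → T → K → Prop
  | nil {t : T} (w : X.W t) : Walk t t (X.e t w)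
  | cons {t₀ : T} {v : V} {δ : Bool} {t t' : T} {a : K} (w : X.W t₀) :
      X.inc v (!δ) t₀ → X.inc v δ t → Walk t t' a →
      Walk t₀ t' (X.e t₀ w * lt (X.k v) δ * a)

variable {X}

/-- multiplication from the left with an element of a brick -/
theorem Walk.mul_left {t t' : T} {a : K} (h : X.Walk t t' a) (w : X.W t) :
    X.Walk t t' (X.e t w * a) := by
  cases h with
  | nil w' =>
    rw [← map_mul]
    exact .nil _
  | @cons _ v δ t₁ _ a w' i i' h =>
    have h1 : X.e t w * (X.e t w' * lt (X.k v) δ * a) = X.e t (w * w') * lt (X.k v) δ * a := by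
      rw [map_mul]; group
    rw [h1]
    exact .cons _ i i' h

theorem Walk.trans {t t' t'' : T} {a b : K} (h : X.Walk t t' a) (h' : X.Walk t' t'' b) :
    X.Walk t t'' (a * b) := by
  induction h with
  | nil w => exact h'.mul_left w
  | @cons t₀ v δ t t' a w i i' _ ih =>
    rw [mul_assoc]
    exact .cons _ i i' (ih h')

theorem Walk.symm {t t' : T} {a : K} (h : X.Walk t t' a) : X.Walk t' t a⁻¹ := by
  induction h with
  | nil w =>
    rw [← map_inv]
    exact .nil _
  | @cons t₀ v δ t t' a w i i' h ih =>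
    have h2 : X.Walk t t₀ (X.e t 1 * lt (X.k v) (!δ) * X.e t₀ w⁻¹) :=
      .cons _ (by rw [Bool.not_not]; exact i') i (.nil _)
    have h3 : (X.e t₀ w * lt (X.k v) δ * a)⁻¹ =
        a⁻¹ * (X.e t 1 * lt (X.k v) (!δ) * X.e t₀ w⁻¹) := by
      rw [map_one, map_inv, one_mul]
      cases δ
      · simp only [lt_false, Bool.not_false, lt_true]; group
      · simp only [lt_true, Bool.not_true, lt_false]; group
    rw [h3]
    exact ih.trans h2

/-- **Generation**: if `K` is generated by the groups of the bricks of the column and the letters of the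
walls, and all bricks are connected with the brick `t₀` by walks of value `1`, then every element of
`K` is the value of a closed walk at `t₀`. -/
theorem walk_of_gen {t₀ : T} (hconn : ∀ t, X.Walk t₀ t 1)
    (hinc : ∀ v, ∃ t t', X.inc v false t ∧ X.inc v true t')
    (hgen : Subgroup.closure ({a | ∃ t w, a = X.e t w} ∪ {a | ∃ v, a = X.k v}) = ⊤)
    (a : K) : X.Walk t₀ t₀ a := by
  have h1 : a ∈ Subgroup.closure ({a | ∃ t w, a = X.e t w} ∪ {a | ∃ v, a = X.k v}) := by
    rw [hgen]; exact Subgroup.mem_top a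
  induction h1 using Subgroup.closure_induction with
  | mem x hx =>
    rcases hx with ⟨t, w, rfl⟩ | ⟨v, rfl⟩
    · have h2 := (hconn t).trans ((Walk.nil (X := X) w).trans (hconn t).symm)
      rwa [inv_one, mul_one, one_mul] at h2
    · obtain ⟨t, t', i, i'⟩ := hinc v
      have h3 : X.Walk t t' (X.e t 1 * lt (X.k v) true * X.e t' 1) :=
        .cons (δ := true) _ i i' (.nil _)
      have h2 := (hconn t).trans (h3.trans (hconn t').symm)
      simpa using h2
  | one =>
    have h2 := Walk.nil (X := X) (1 : X.W t₀)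
    rwa [map_one] at h2
  | mul x y _ _ hx hy => exact hx.trans hy
  | inv x _ hx => exact hx.symm

variable (X) in
/-- reduced paths in the column with their values in `K` and in the universal group -/
inductive Red : T → V → Bool → T → K → D.sys.U → Prop
  | one {t₀ : T} {v : V} {δ : Bool} {t : T} (i₀ : X.inc v (!δ) t₀) (i : X.inc v δ t) (w : X.W t) :
      Red t₀ v δ t (lt (X.k v) δ * X.e t w)
        (lQ D (X.p i₀) * D.sys.base (lt (X.m v) δ) * (lQ D (X.p i))⁻¹ * D.sys.base (X.u t w))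
  | cons {t₀ : T} {v : V} {δ : Bool} {t : T} (i₀ : X.inc v (!δ) t₀) (i : X.inc v δ t)
      (w : X.W t) {v' : V} {δ' : Bool} {t' : T} {a : K} {g : D.sys.U} :
      ¬ (v' = v ∧ δ' = !δ ∧ ∃ l, (X.u t w, l) ∈ D.LQ (X.p i)) → Red t v' δ' t' a g →
      Red t₀ v δ t' (lt (X.k v) δ * X.e t w * a)
        (lQ D (X.p i₀) * D.sys.base (lt (X.m v) δ) * (lQ D (X.p i))⁻¹ * D.sys.base (X.u t w) * g)

theorem qsd_ne' {v : V} {δ : Bool} {t t' : T} (i : X.inc v (!δ) t) (i' : X.inc v δ t') :
    qsd (X.p i) ≠ qsd (X.p i') := by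
  cases δ
  · exact (X.qsd_ne i' i).symm
  · exact X.qsd_ne i i'

theorem Red.cw {t₀ : T} {v : V} {δ : Bool} {t : T} {a : K} {g : D.sys.U}
    (h : X.Red t₀ v δ t a g) : ∃ i₀ : X.inc v (!δ) t₀, CW D qsd (X.p i₀) g := by
  induction h with
  | one i₀ i w => exact ⟨i₀, .one _ _ (qsd_ne' i₀ i)⟩
  | @cons t₀ v δ t i₀ i w v' δ' t' a g hn _ ih =>
    obtain ⟨i', h⟩ := ih
    refine ⟨i₀, .cons _ _ (qsd_ne' i₀ i) ?_ h⟩
    rintro ⟨h1, h2⟩
    obtain ⟨rfl, h3⟩ := X.p_inj i i' h1
    exact hn ⟨rfl, by rw [h3, Bool.not_not], h2⟩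

/-- crossing a wall in the group `K` -/
theorem F_lt {v : V} {δ : Bool} {t t' : T} (i : X.inc v (!δ) t) (i' : X.inc v δ t') :
    X.F (lt (X.k v) δ) =
      X.q t * (lQ D (X.p i) * D.sys.base (lt (X.m v) δ) * (lQ D (X.p i'))⁻¹) * (X.q t')⁻¹ := by
  cases δ
  · rw [lt_false, lt_false, map_inv, X.F_k i' i, map_inv]
    group
  · exact X.F_k i i'

theorem Red.F_eq {t₀ : T} {v : V} {δ : Bool} {t : T} {a : K} {g : D.sys.U}
    (h : X.Red t₀ v δ t a g) : X.F a = X.q t₀ * g * (X.q t)⁻¹ := by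
  induction h with
  | one i₀ i w =>
    rw [map_mul, F_lt i₀ i, X.F_e]
    group
  | cons i₀ i w hn _ ih =>
    rw [map_mul, map_mul, F_lt i₀ i, X.F_e, ih]
    group

/-- **Reduction**: the value of a walk is an element of a brick or such an element times the value of
a reduced path. -/
theorem Walk.reduce {t₀ t : T} {a : K} (h : X.Walk t₀ t a) :
    (t₀ = t ∧ ∃ w, a = X.e t₀ w) ∨
      ∃ (w : X.W t₀) (v : V) (δ : Bool) (b : K) (g : D.sys.U), X.Red t₀ v δ t b g ∧
        a = X.e t₀ w * b := by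
  induction h with
  | @nil t w => exact Or.inl ⟨rfl, w, rfl⟩
  | @cons t₀ v δ t t' a w i i' h ih =>
    rcases ih with ⟨rfl, w', rfl⟩ | ⟨w', v', δ', b, g, h1, rfl⟩
    · exact Or.inr ⟨w, v, δ, _, _, .one i i' w', by rw [mul_assoc]⟩
    · by_cases hn : v' = v ∧ δ' = !δ ∧ ∃ l, (X.u t w', l) ∈ D.LQ (X.p i')
      · obtain ⟨rfl, rfl, l, hl⟩ := hn
        obtain ⟨w'', h0⟩ := X.cross i' i w' hl
        have h2 : X.e t₀ w * lt (X.k v') δ * (X.e t w' * (lt (X.k v') (!δ))) =
            X.e t₀ (w * w'') := by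
          rw [h0, mul_assoc, ← mul_assoc (lt (X.k v') δ), lt_mul_lt_not, one_mul, map_mul]
        cases h1 with
        | one j₀ j w₂ =>
          obtain rfl := X.uniq i j
          refine Or.inl ⟨rfl, w * w'' * w₂, ?_⟩
          rw [map_mul (X.e t₀) (w * _), ← h2]
          group
        | @cons _ _ _ t₁ j₀ j w₂ v₂ δ₂ _ b' g' hn' h' =>
          obtain rfl := X.uniq i j
          refine Or.inr ⟨w * w'' * w₂, _, _, _, _, h', ?_⟩
          rw [map_mul (X.e t₀) (w * _), ← h2]
          group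
      · exact Or.inr ⟨w, v, δ, _, _, .cons i i' w' hn h1, by group⟩

/-- the values of closed walks in the universal group -/
theorem Walk.spec {t₀ : T} {a : K} (h : X.Walk t₀ t₀ a) :
    (∃ w : X.W t₀, X.F a = X.q t₀ * D.sys.base (X.u t₀ w) * (X.q t₀)⁻¹ ∧ (w = 1 → a = 1)) ∨
      ∃ (w : X.W t₀) (q₀ : Q) (g : D.sys.U), CW D qsd q₀ g ∧
        X.F a = X.q t₀ * (D.sys.base (X.u t₀ w) * g) * (X.q t₀)⁻¹ := by
  rcases h.reduce with ⟨-, w, rfl⟩ | ⟨w, v, δ, b, g, h1, rfl⟩
  · refine Or.inl ⟨w, X.F_e _ _, ?_⟩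
    rintro rfl
    rw [map_one]
  · obtain ⟨i₀, h2⟩ := h1.cw
    refine Or.inr ⟨w, X.p i₀, g, h2, ?_⟩
    rw [map_mul, X.F_e, h1.F_eq]
    group

/-- **The group over a column embeds.** -/
theorem F_injective (H : D.VCond psd) (H' : D.swap.VCond qsd) {t₀ : T}
    (h : ∀ a, X.Walk t₀ t₀ a) (hu : Injective (X.u t₀)) : Injective X.F := by
  rw [injective_iff_map_eq_one]
  intro a ha
  rcases (h a).spec with ⟨w, h1, h2⟩ | ⟨w, q₀, g, h1, h2⟩
  · apply h2
    rw [ha] at h1
    have h3 : D.sys.base (X.u t₀ w) = 1 := by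
      have h4 := mul_inv_eq_one.1 h1.symm
      exact mul_eq_left.1 h4
    rw [map_eq_one_iff _ (D.sys.base_injective (TriData.girth H H')), map_eq_one_iff _ hu] at h3
    exact h3
  · exfalso
    rw [ha] at h2
    refine h1.ne H H' (X.u t₀ w) 1 ?_
    have h4 := mul_inv_eq_one.1 h2.symm
    rw [map_one]
    exact mul_eq_left.1 h4

end ColK

/-- **Rows and columns through a common brick are independent**: a group over a row and a group over
a column through a common brick inject, as a set, into every group over the universal group. -/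
theorem inv_row_col {Γ P Q R τ : Type*} [Group Γ] {D : TriData Γ P Q R τ} {psd : P → Bool}
    {qsd : Q → Bool} (H : D.VCond psd) (H' : D.swap.VCond qsd) {T V K T' V' K' M : Type*}
    [Group K] [Group K'] [Group M] (X : RowK D psd T V K) (Y : ColK D qsd T' V' K') {t₀ : T}
    {t₁ : T'} (hX : ∀ a, X.Walk t₀ t₀ a) (hY : ∀ b, Y.Walk t₁ t₁ b) (z : Γ)
    (hz : Y.q t₁ = X.q t₀ * D.sys.base z)
    (hind : ∀ (w : X.W t₀) (w' : Y.W t₁), X.u t₀ w * (z * Y.u t₁ w' * z⁻¹) = 1 → w = 1 ∧ w' = 1)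
    (φ : M →* D.sys.U) (f : K →* M) (g : K' →* M) (hf : ∀ a, φ (f a) = X.F a)
    (hg : ∀ b, φ (g b) = Y.F b) : Pool.GSG.INV f g := by
  intro a b hab
  have h0 : X.F a * Y.F b = 1 := by rw [← hf, ← hg, ← map_mul, hab, map_one]
  rcases (hX a).spec with ⟨w, h1, h2⟩ | ⟨w, p₀, γ, h1, h2⟩ <;>
  rcases (hY b).spec with ⟨w', h3, h4⟩ | ⟨w', q₀, γ', h3, h4⟩
  · rw [h1, h3, hz] at h0
    have h5 : D.sys.base (X.u t₀ w * (z * Y.u t₁ w' * z⁻¹)) = 1 := by
      have h6 := congrArg (fun y => (X.q t₀)⁻¹ * y * X.q t₀) h0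
      simp only [mul_one, inv_mul_cancel] at h6
      refine Eq.trans ?_ h6
      simp only [map_mul, map_inv]
      group
    rw [map_eq_one_iff _ (D.sys.base_injective (TriData.girth H H'))] at h5
    obtain ⟨h6, h7⟩ := hind _ _ h5
    exact ⟨h2 h6, h4 h7⟩
  · exfalso
    rw [h1, h4, hz] at h0
    refine h3.ne H H' (X.u t₀ w * z * Y.u t₁ w') z ?_
    have h6 : (X.q t₀)⁻¹ * 1 * X.q t₀ * D.sys.base z = D.sys.base z := by group
    rw [← h0] at h6
    refine Eq.trans ?_ h6
    simp only [map_mul]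
    group
  · exfalso
    rw [h2, h3, hz] at h0
    refine h1.ne H H' (X.u t₀ w) (z * Y.u t₁ w' * z⁻¹)⁻¹ ?_
    rw [map_inv, eq_inv_iff_mul_eq_one]
    have h6 := congrArg (fun y => (X.q t₀)⁻¹ * y * X.q t₀) h0
    simp only [mul_one, inv_mul_cancel] at h6
    refine Eq.trans ?_ h6
    simp only [map_mul, map_inv]
    group
  · exfalso
    rw [h2, h4, hz] at h0
    refine h1.mul_CW_ne H H' h3 (z * Y.u t₁ w') (X.u t₀ w) z ?_
    have h6 : (X.q t₀)⁻¹ * 1 * X.q t₀ * D.sys.base z = D.sys.base z := by group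
    rw [← h0] at h6
    refine Eq.trans ?_ h6
    simp only [map_mul]
    group

end Pool.TPR
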